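import Pool.Agent.H.MP_9f28a9_al.A

namespace Pool.Agent.H.MP_cfafa5_al

variable {A : Type} [Ring A]

lemma compl_lemma {Q : Type} [AddCommGroup Q] [Module A Q] (hQ : Module.Injective A Q)
    (U K0 : Submodule A Q) (h0 : Disjoint K0 U) : ∃ E K : Submodule A Q, U ≤ E ∧ K0 ≤ K ∧
      IsCompl E K ∧ ∀ x ∈ E, x ≠ 0 → ∃ r : A, r • x ∈ U ∧ r • x ≠ 0 := by
  have zorn : ∀ (W W0 : Submodule A Q), Disjoint W0 W →
      ∃ K, W0 ≤ K ∧ Maximal (fun K => K ∈ {K | Disjoint K W}) K := fun W W0 h =>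
    zorn_le_nonempty₀ {K : Submodule A Q | Disjoint K W} (fun c hc hc' y hy =>
      ⟨sSup c, Submodule.disjoint_def.2 fun x hx hx' => by
        obtain ⟨E, hE, hx⟩ := (Submodule.mem_sSup_of_directed ⟨y, hy⟩ hc'.directedOn).1 hx
        exact Submodule.disjoint_def.1 (hc hE) x hx hx', fun z hz => le_sSup hz⟩) W0 h
  obtain ⟨K, hK0, hK⟩ := zorn U K0 h0
  obtain ⟨E, hE0, hE⟩ := zorn K U hK.1.symm
  have hKU := Submodule.disjoint_def.1 hK.1
  have hEK := Submodule.disjoint_def.1 hE.1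
  have h1 : ∀ y, y ∉ K → ∃ r : A, ∃ k ∈ K, k + r • y ∈ U ∧ k + r • y ≠ 0 := by
    intro y hy
    by_contra hc
    refine hy (hK.2 (y := K ⊔ Submodule.span A {y}) (Submodule.disjoint_def.2 fun x hx hx' => ?_)
      le_sup_left (Submodule.mem_sup_right (Submodule.mem_span_singleton_self y)))
    obtain ⟨k, hk, z, hz, rfl⟩ := Submodule.mem_sup.1 hx
    obtain ⟨r, rfl⟩ := Submodule.mem_span_singleton.1 hz
    by_contra h
    exact hc ⟨r, k, hk, hx', h⟩
  have h2 : Function.Injective (K.mkQ ∘ₗ E.subtype) := by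
    rw [injective_iff_map_eq_zero]
    exact fun x hx => Subtype.ext (hEK x x.2 ((Submodule.Quotient.mk_eq_zero _).1 hx))
  obtain ⟨h, hh⟩ := hQ.out _ h2 E.subtype
  have hh' : ∀ x ∈ E, h (K.mkQ x) = x := fun x hx => hh ⟨x, hx⟩
  have h3 : ∀ y, h (K.mkQ y) ∈ K → y ∈ K := by
    intro y hy
    by_contra hn
    obtain ⟨r, k, hk, h4, h5⟩ := h1 y hn
    refine h5 (hKU _ ?_ h4)
    rw [← hh' _ (hE0 h4), map_add, show K.mkQ k = 0 from (Submodule.Quotient.mk_eq_zero _).2 hk,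
      zero_add, map_smul, map_smul]
    exact K.smul_mem r hy
  have h4 : LinearMap.range h ≤ E := hE.2 (Submodule.disjoint_def.2 (by
    rintro _ ⟨y, rfl⟩ hy
    obtain ⟨y, rfl⟩ := K.mkQ_surjective y
    rw [show K.mkQ y = 0 from (Submodule.Quotient.mk_eq_zero _).2 (h3 y hy), map_zero]))
    (fun x hx => ⟨_, hh' x hx⟩)
  refine ⟨E, K, hE0, hK0, ⟨hE.1, codisjoint_iff.2 (eq_top_iff.2 fun y _ => ?_)⟩, fun x hx hx0 => ?_⟩
  · have h5 : h (K.mkQ y) ∈ E := h4 ⟨_, rfl⟩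
    refine Submodule.mem_sup.2 ⟨_, h5, y - h (K.mkQ y), h3 _ ?_, by abel⟩
    rw [map_sub, map_sub, hh' _ h5, sub_self]
    exact K.zero_mem
  · obtain ⟨r, k, hk, h5, h6⟩ := h1 x (fun h => hx0 (hEK x hx h))
    have : k = 0 := hEK k (by simpa using E.sub_mem (hE0 h5) (E.smul_mem r hx)) hk
    exact ⟨r, by simpa [this] using h5, by simpa [this] using h6⟩

lemma exists_hull (M : Type) [AddCommGroup M] [Module A M] :
    ∃ (E : Type) (_ : AddCommGroup E) (_ : Module A E) (f : M →ₗ[A] E), Module.Injective A E ∧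
      Function.Injective f ∧ ∀ x : E, x ≠ 0 → ∃ (r : A) (m : M), m ≠ 0 ∧ r • x = f m := by
  obtain ⟨p⟩ := CategoryTheory.EnoughInjectives.presentation (ModuleCat.of A M)
  have hQ : Module.Injective A p.J :=
    Module.injective_module_of_injective_object A p.J (inj := p.injective)
  have hf : Function.Injective p.f.hom := (ModuleCat.mono_iff_injective p.f).1 p.mono
  obtain ⟨E, K, h1, -, h2, h3⟩ := compl_lemma hQ (LinearMap.range p.f.hom) ⊥ disjoint_bot_left
  refine ⟨E, inferInstance, inferInstance, p.f.hom.codRestrict E fun m => h1 ⟨m, rfl⟩,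
    ⟨fun X Y _ _ _ _ f hf g => ?_⟩, fun x y h => hf (congrArg Subtype.val h), fun x hx => ?_⟩
  · obtain ⟨k, hk⟩ := hQ.out f hf (E.subtype ∘ₗ g)
    exact ⟨E.projectionOnto K h2 ∘ₗ k, fun x => by simp [hk]⟩
  · obtain ⟨r, ⟨m, hm⟩, h⟩ := h3 x x.2 (fun h => hx (Subtype.ext h))
    exact ⟨r, m, by rintro rfl; exact h (by simpa using hm.symm), Subtype.ext hm.symm⟩

lemma iso_of_ann {N N' : Type} [AddCommGroup N] [Module A N] [AddCommGroup N'] [Module A N']
    (h1 : Module.Injective A N) (h1' : Module.Injective A N')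
    (h2 : ∀ U W : Submodule A N, IsCompl U W → U = ⊥ ∨ W = ⊥)
    (h2' : ∀ U W : Submodule A N', IsCompl U W → U = ⊥ ∨ W = ⊥)
    (x : N) (x' : N') (hx : x ≠ 0) (h : ∀ r : A, r • x = 0 ↔ r • x' = 0) :
    Nonempty (N ≃ₗ[A] N') := by
  obtain ⟨f, hf⟩ := h1'.out
    ((LinearMap.ker (LinearMap.toSpanSingleton A N x)).liftQ (LinearMap.toSpanSingleton A N x) le_rfl)
    (by rw [← LinearMap.ker_eq_bot]; exact Submodule.ker_liftQ_eq_bot _ _ _ le_rfl)
    ((LinearMap.ker (LinearMap.toSpanSingleton A N x)).liftQ (LinearMap.toSpanSingleton A N' x')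
      (fun r hr => (h r).1 hr))
  have hfx : f x = x' := by simpa using hf (Submodule.Quotient.mk 1)
  have hinj : Function.Injective f := by
    obtain ⟨E, K, h3, h4, h5, -⟩ := compl_lemma h1 (Submodule.span A {x}) (LinearMap.ker f)
      (Submodule.disjoint_def.2 fun y hy hy' => by
        obtain ⟨r, rfl⟩ := Submodule.mem_span_singleton.1 hy'
        rw [LinearMap.mem_ker, map_smul, hfx] at hy
        exact (h r).2 hy)
    rcases h2 E K h5 with rfl | rfl
    · exact (hx (by simpa using h3 (Submodule.mem_span_singleton_self x))).elim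
    · exact LinearMap.ker_eq_bot.1 (le_bot_iff.1 h4)
  obtain ⟨g, hg⟩ := h1.out f hinj LinearMap.id
  have hc : IsCompl (LinearMap.range f) (LinearMap.ker g) := by
    refine ⟨Submodule.disjoint_def.2 ?_, codisjoint_iff.2 (eq_top_iff.2 fun y _ =>
      Submodule.mem_sup.2 ⟨f (g y), ⟨_, rfl⟩, y - f (g y), by simp [hg], by abel⟩)⟩
    rintro _ ⟨y, rfl⟩ hy
    rw [LinearMap.mem_ker, hg] at hy
    simp at hy
    simp [hy]
  refine ⟨LinearEquiv.ofBijective f ⟨hinj, ?_⟩⟩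
  rcases h2' _ _ hc with h3 | h3
  · refine (hx (hinj ?_)).elim
    simpa using (Submodule.eq_bot_iff _).1 h3 _ ⟨x, rfl⟩
  · rw [← LinearMap.range_eq_top]
    simpa [h3] using hc.codisjoint

/-- Over a regular ring all embeddings are pure. -/
lemma pure_of_reg (reg : ∀ a : A, ∃ x, a * x * a = a) {X Y : Type} [AddCommGroup X] [Module A X]
    [AddCommGroup Y] [Module A Y] (f : X →ₗ[A] Y) (hf : Function.Injective f) (n m : ℕ)
    (r : Fin m → Fin n → A) (a : Fin m → X) (h : ∃ y : Fin n → Y, ∀ j, ∑ i, r j i • y i = f (a j)) :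
    ∃ x : Fin n → X, ∀ j, ∑ i, r j i • x i = a j := by
  obtain ⟨y, hy⟩ := h
  obtain ⟨D, hD⟩ := Pool.Agent.H.MP_9f28a9_al.solve reg m r
  obtain ⟨z, hz⟩ := (hD _ (fun i => (LinearMap.range f).mkQ (y i))).1 (fun j => by
    simp only [← map_smul, ← map_sum, hy]
    exact (Submodule.Quotient.mk_eq_zero _).2 ⟨_, rfl⟩)
  choose w hw using fun k => (LinearMap.range f).mkQ_surjective (z k)
  have h1 : ∀ i, ∃ x, f x = y i - ∑ k, D i k • w k := fun i => by
    rw [← LinearMap.mem_range, ← Submodule.Quotient.mk_eq_zero, ← Submodule.mkQ_apply, map_sub, hz,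
      map_sum, sub_eq_zero]
    simp only [map_smul, hw]
  choose x hx using h1
  refine ⟨x, fun j => hf ?_⟩
  have h2 := (hD Y (fun i => ∑ k, D i k • w k)).2 ⟨w, fun _ => rfl⟩ j
  simp only [map_sum, map_smul, hx, smul_sub, Finset.sum_sub_distrib, h2, hy, sub_zero]

end Pool.Agent.H.MP_cfafa5_al
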