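import Pool.Agent.H.MP_9f28a9_al.A

namespace Pool.Agent.H.MP_cfafa5_al

abbrev F := ZMod 2

lemma F_cases (l : F) : l = 0 ∨ l = 1 := by revert l; decide

/-- Creation and annihilation elements. -/
structure CA (E : Type) [Ring E] [Algebra F E] where
  c : ℕ → E
  a : (ℕ → F) →ₗ[F] E
  rel : ∀ w i, a w * c i = w i • (1 : E)

lemma local_unit (S : Finset (ℕ → F)) : ∃ (T : Finset ℕ) (u : ℕ → ℕ → F),
    ∀ w ∈ S, w = ∑ t ∈ T, w t • u t := by
  classical
  let π : ℕ → (S → F) := fun i w => w.1 i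
  let ρ : ℕ → ℕ := fun i => Function.invFun π (π i)
  have hρ : ∀ i, π (ρ i) = π i := fun i => Function.invFun_eq ⟨i, rfl⟩
  refine ⟨Finset.univ.image (Function.invFun π), fun t i => if ρ i = t then 1 else 0,
    fun w hw => funext fun i => ?_⟩
  rw [Finset.sum_apply, Finset.sum_eq_single (ρ i)]
  · simpa using (congrFun (hρ i) ⟨w, hw⟩).symm
  · intro t _ ht
    simp [ht.symm]
  · intro h
    exact (h (Finset.mem_image_of_mem _ (Finset.mem_univ _))).elim

namespace CA

variable {E : Type} [Ring E] [Algebra F E] (X : CA E)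

lemma rel' (w : ℕ → F) (i : ℕ) (z : E) : X.a w * (X.c i * z) = w i • z := by
  rw [← mul_assoc, X.rel, smul_mul_assoc, one_mul]

def d (i : ℕ) : E := X.a (Pi.single i 1)

lemma d_c (i j : ℕ) (z : E) : X.d i * (X.c j * z) = if j = i then z else 0 := by
  rw [d, rel', Pi.single_apply]
  split_ifs <;> simp

lemma d_c_self (i : ℕ) : X.d i * X.c i = 1 := by
  simpa using X.d_c i i 1

def q (n : ℕ) : E := ∑ i ∈ Finset.range n, X.c i * X.d i

lemma q_succ (n : ℕ) : X.q (n + 1) = X.q n + X.c n * X.d n := Finset.sum_range_succ _ _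

lemma q_c (n j : ℕ) (z : E) : X.q n * (X.c j * z) = if j < n then X.c j * z else 0 := by
  simp only [q, Finset.sum_mul, mul_assoc, d_c, mul_ite, mul_zero, Finset.sum_ite_eq,
    Finset.mem_range]

lemma q_q (n : ℕ) : X.q n * X.q n = X.q n := by
  nth_rewrite 2 [q]
  rw [Finset.mul_sum]
  exact Finset.sum_congr rfl fun i hi => by rw [q_c, if_pos (Finset.mem_range.1 hi)]

def Row (A : Subalgebra F E) : Submodule F E :=
  Submodule.span F {z | ∃ y ∈ A, ∃ w, z = y * X.a w}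

def FF (A : Subalgebra F E) : Submodule F E :=
  Submodule.span F {z | ∃ i, ∃ y ∈ A, ∃ w, z = X.c i * (y * X.a w)}

variable {A : Subalgebra F E}

lemma mem_FF (i : ℕ) {y : E} (hy : y ∈ A) (w : ℕ → F) : X.c i * (y * X.a w) ∈ X.FF A :=
  Submodule.subset_span ⟨i, y, hy, w, rfl⟩

lemma row_of_FF (w : ℕ → F) {z : E} (hz : z ∈ X.FF A) : X.a w * z ∈ X.Row A := by
  induction hz using Submodule.span_induction with
  | mem z hz =>
    obtain ⟨i, y, hy, w', rfl⟩ := hz
    rw [rel']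
    exact Submodule.smul_mem _ _ (Submodule.subset_span ⟨y, hy, w', rfl⟩)
  | zero => simp
  | add x y _ _ hx hy => rw [mul_add]; exact Submodule.add_mem _ hx hy
  | smul r x _ hx => rw [mul_smul_comm]; exact Submodule.smul_mem _ _ hx

lemma FF_of_row (i : ℕ) {y z : E} (hy : y ∈ A) (hz : z ∈ X.Row A) :
    X.c i * (y * z) ∈ X.FF A := by
  induction hz using Submodule.span_induction with
  | mem z hz =>
    obtain ⟨y', hy', w', rfl⟩ := hz
    rw [← mul_assoc y]
    exact X.mem_FF i (A.mul_mem hy hy') w'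
  | zero => simp
  | add x y _ _ hx hy => rw [mul_add, mul_add]; exact Submodule.add_mem _ hx hy
  | smul r x _ hx => rw [mul_smul_comm, mul_smul_comm]; exact Submodule.smul_mem _ _ hx

lemma FF_mul {x z : E} (hx : x ∈ X.FF A) (hz : z ∈ X.FF A) : x * z ∈ X.FF A := by
  induction hx using Submodule.span_induction with
  | mem x hx =>
    obtain ⟨i, y, hy, w, rfl⟩ := hx
    rw [mul_assoc, mul_assoc]
    exact X.FF_of_row i hy (X.row_of_FF w hz)
  | zero => simp
  | add x y _ _ hx hy => rw [add_mul]; exact Submodule.add_mem _ hx hy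
  | smul r x _ hx => rw [smul_mul_assoc]; exact Submodule.smul_mem _ _ hx

lemma exists_q {z : E} (hz : z ∈ X.FF A) : ∃ n0, ∀ n, n0 ≤ n → X.q n * z = z := by
  induction hz using Submodule.span_induction with
  | mem z hz =>
    obtain ⟨i, y, hy, w', rfl⟩ := hz
    exact ⟨i + 1, fun n hn => by rw [q_c, if_pos (by omega)]⟩
  | zero => simp
  | add x y _ _ hx hy =>
    obtain ⟨n, hn⟩ := hx
    obtain ⟨m, hm⟩ := hy
    exact ⟨max n m, fun k hk => by rw [mul_add, hn k (by omega), hm k (by omega)]⟩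
  | smul r x _ hx =>
    obtain ⟨n, hn⟩ := hx
    exact ⟨n, fun k hk => by rw [mul_smul_comm, hn k hk]⟩

lemma row_c {r : E} (hr : r ∈ X.Row A) (t : ℕ) : r * X.c t ∈ A := by
  induction hr using Submodule.span_induction with
  | mem z hz =>
    obtain ⟨y, hy, w, rfl⟩ := hz
    rw [mul_assoc, X.rel, mul_smul_comm, mul_one]
    exact A.smul_mem hy _
  | zero => simp
  | add x y _ _ hx hy => rw [add_mul]; exact A.add_mem hx hy
  | smul r x _ hx => rw [smul_mul_assoc]; exact A.smul_mem hx _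

lemma row_unit {r : E} (hr : r ∈ X.Row A) :
    ∃ (T : Finset ℕ) (u : ℕ → ℕ → F), r = ∑ t ∈ T, r * X.c t * X.a (u t) := by
  classical
  have : ∃ S : Finset (ℕ → F), ∀ z : E, (∀ w ∈ S, X.a w * z = X.a w) → r * z = r := by
    induction hr using Submodule.span_induction with
    | mem z hz =>
      obtain ⟨y, hy, w, rfl⟩ := hz
      exact ⟨{w}, fun z hz => by rw [mul_assoc, hz w (by simp)]⟩
    | zero => exact ⟨∅, by simp⟩
    | add x y _ _ hx hy =>
      obtain ⟨S, hS⟩ := hx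
      obtain ⟨S', hS'⟩ := hy
      exact ⟨S ∪ S', fun z hz => by
        rw [add_mul, hS z fun w hw => hz w (Finset.mem_union_left _ hw),
          hS' z fun w hw => hz w (Finset.mem_union_right _ hw)]⟩
    | smul r x _ hx =>
      obtain ⟨S, hS⟩ := hx
      exact ⟨S, fun z hz => by rw [smul_mul_assoc, hS z hz]⟩
  obtain ⟨S, hS⟩ := this
  obtain ⟨T, u, h⟩ := local_unit S
  refine ⟨T, u, ?_⟩
  simp only [mul_assoc, ← Finset.mul_sum]
  refine (hS _ fun w hw => ?_).symm
  simp only [Finset.mul_sum, rel', ← map_smul, ← map_sum]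
  rw [← h w hw]

def Step (A : Subalgebra F E) : Subalgebra F E where
  carrier := {x | ∃ l : F, x - l • 1 ∈ X.FF A}
  mul_mem' := by
    rintro x y ⟨l, hl⟩ ⟨m, hm⟩
    refine ⟨l * m, ?_⟩
    have : x * y - (l * m) • 1 = (x - l • 1) * (y - m • 1) + l • (y - m • 1) + m • (x - l • 1) := by
      simp only [mul_sub, sub_mul, smul_mul_assoc, mul_smul_comm, one_mul, mul_one, smul_sub,
        smul_smul, mul_comm m l]
      abel
    rw [this]
    exact Submodule.add_mem _ (Submodule.add_mem _ (X.FF_mul hl hm) (Submodule.smul_mem _ _ hm))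
      (Submodule.smul_mem _ _ hl)
  add_mem' := by
    rintro x y ⟨l, hl⟩ ⟨m, hm⟩
    refine ⟨l + m, ?_⟩
    have : x + y - (l + m) • 1 = (x - l • 1) + (y - m • 1) := by rw [add_smul]; abel
    rw [this]
    exact Submodule.add_mem _ hl hm
  algebraMap_mem' l := ⟨l, by simp [Algebra.algebraMap_eq_smul_one]⟩

lemma step_of_FF {x : E} (hx : x ∈ X.FF A) : x ∈ X.Step A := ⟨0, by simpa using hx⟩

lemma step_cases {x : E} (hx : x ∈ X.Step A) : x ∈ X.FF A ∨ x - 1 ∈ X.FF A := by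
  obtain ⟨l, hl⟩ := hx
  rcases F_cases l with rfl | rfl
  · exact Or.inl (by simpa using hl)
  · exact Or.inr (by simpa using hl)

lemma FF_mul_step {x z : E} (hx : x ∈ X.FF A) (hz : z ∈ X.Step A) : x * z ∈ X.FF A := by
  rcases X.step_cases hz with h | h
  · exact X.FF_mul hx h
  · simpa [mul_sub] using Submodule.add_mem _ (X.FF_mul hx h) hx

lemma step_mul_FF {x z : E} (hz : z ∈ X.Step A) (hx : x ∈ X.FF A) : z * x ∈ X.FF A := by
  rcases X.step_cases hz with h | h
  · exact X.FF_mul h hx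
  · simpa [sub_mul] using Submodule.add_mem _ (X.FF_mul h hx) hx

lemma cd_mem (i : ℕ) (w : ℕ → F) : X.c i * X.a w ∈ X.FF A := by
  simpa using X.mem_FF i A.one_mem w

lemma q_mem (n : ℕ) : X.q n ∈ X.FF A := Submodule.sum_mem _ fun i _ => X.cd_mem i _

/-- Regularity of a subalgebra. -/
def Reg (A : Subalgebra F E) : Prop := ∀ x ∈ A, ∃ y ∈ A, x * y * x = x

lemma reg_row (hA : Reg A) (i : ℕ) {r : E} (hr : r ∈ X.Row A) :
    ∃ y ∈ X.Step A, X.c i * r * y * (X.c i * r) = X.c i * r := by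
  classical
  obtain ⟨T, u, h⟩ := X.row_unit hr
  obtain ⟨b, hb⟩ := Pool.Agent.H.MP_9f28a9_al.row_idem (A := A)
    (fun x => by
      obtain ⟨y, hy, h⟩ := hA x x.2
      exact ⟨⟨y, hy⟩, Subtype.ext h⟩) (fun t => ⟨r * X.c t, X.row_c hr t⟩) T
  refine ⟨∑ t ∈ T, X.c t * ((b t).1 * X.d i), X.step_of_FF
    (Submodule.sum_mem _ fun t _ => X.mem_FF t (b t).2 _), ?_⟩
  have h1 : (∑ t ∈ T, r * X.c t * (b t).1) * r = r := by
    nth_rewrite 2 [h]
    nth_rewrite 3 [h]
    rw [Finset.mul_sum]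
    refine Finset.sum_congr rfl fun t ht => ?_
    have := congrArg Subtype.val (hb t ht)
    simp only [MulMemClass.coe_mul, AddSubmonoidClass.coe_finset_sum] at this
    rw [← mul_assoc, this]
  rw [mul_assoc, mul_assoc, ← mul_assoc r]
  congr 1
  rw [← h1, Finset.mul_sum, Finset.sum_mul, Finset.sum_mul]
  refine Finset.sum_congr rfl fun t _ => ?_
  simp only [mul_assoc, d_c, if_true]
  simp only [← mul_assoc, ← Finset.sum_mul, h1]

lemma reg_FF (hA : Reg A) (n : ℕ) : ∀ x ∈ X.FF A, X.q n * x = x →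
    ∃ y ∈ X.Step A, x * y * x = x := by
  induction n with
  | zero => intro x _ h; exact ⟨0, zero_mem _, by simpa [q] using h⟩
  | succ n ih =>
    intro x hx h
    have hq := X.step_of_FF (X.q_mem (A := A) n)
    have hp := X.step_of_FF (X.cd_mem (A := A) n (Pi.single n 1))
    have hx' := X.step_of_FF hx
    obtain ⟨y, hy, h1⟩ := ih _ (X.FF_mul (X.q_mem n) hx) (by rw [← mul_assoc, q_q])
    have hd : 1 - y * (X.q n * x) ∈ X.Step A :=
      sub_mem (one_mem _) (mul_mem hy (mul_mem hq hx'))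
    obtain ⟨k, hk, h2⟩ := X.reg_row hA n (X.row_of_FF (Pi.single n 1) (X.FF_mul_step hx hd))
    rw [q_succ, add_mul] at h
    change _ + X.c n * X.a (Pi.single n 1) * x = x at h
    rw [← mul_assoc (X.c n), ← mul_assoc (X.c n * _)] at h2
    generalize X.c n * X.a (Pi.single n 1) = p at h hp h2
    generalize X.q n = s at h hq h1 hd h2
    refine ⟨y * s + (1 - y * (s * x)) * k * p * (1 - x * y * s), add_mem (mul_mem hy hq)
      (mul_mem (mul_mem (mul_mem hd hk) hp) (sub_mem (one_mem _) (mul_mem (mul_mem hx' hy) hq))), ?_⟩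
    have h3 : x * ((1 - y * (s * x)) * (1 - k * (p * x * (1 - y * (s * x))))) = 0 := by
      nth_rewrite 1 [← h]
      have e1 : s * x * (1 - y * (s * x)) = 0 := by rw [mul_sub, ← mul_assoc, h1]; simp
      rw [add_mul, ← mul_assoc (s * x), e1, zero_mul, zero_add, ← mul_assoc, mul_sub, mul_one,
        ← mul_assoc _ k, h2, sub_self]
    rw [← sub_eq_zero, ← neg_eq_zero, ← h3]
    noncomm_ring

lemma reg_step (hA : Reg A) : Reg (X.Step A) := by
  have h1 : ∀ x ∈ X.FF A, ∃ y ∈ X.Step A, x * y * x = x := fun x hx => by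
    obtain ⟨n, hn⟩ := X.exists_q hx
    exact X.reg_FF hA n x hx (hn n le_rfl)
  intro x hx
  rcases X.step_cases hx with h | h
  · exact h1 x h
  · obtain ⟨y, hy, h2⟩ := h1 _ (X.step_mul_FF hx h)
    refine ⟨1 - (x - 1) * y * (x - 1), sub_mem (one_mem _) (mul_mem (mul_mem
      (X.step_of_FF h) hy) (X.step_of_FF h)), ?_⟩
    have : x * (1 - (x - 1) * y * (x - 1)) * x = x * x - x * (x - 1) * y * (x * (x - 1)) := by
      noncomm_ring
    rw [this, h2]
    noncomm_ring

/-- All right ideals are countably generated. -/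
def CG (A : Subalgebra F E) : Prop := ∀ I : Submodule F E, (∀ x ∈ I, x ∈ A) →
  (∀ x ∈ I, ∀ y ∈ A, x * y ∈ I) → ∃ G : Set E, G.Countable ∧ G ⊆ I ∧
    ∀ I' : Submodule F E, G ⊆ I' → (∀ x ∈ I', ∀ y ∈ A, x * y ∈ I') → I ≤ I'

/-- The comparison map. -/
def cmp (n : ℕ) : E →ₗ[F] E := LinearMap.mulRight F (X.c 0) ∘ₗ LinearMap.mulLeft F (X.d n)

lemma cmp_apply (n : ℕ) (z : E) : X.cmp n z = X.d n * z * X.c 0 := rfl

lemma cmp_mul (n : ℕ) (z y : E) : X.cmp n (z * (X.c 0 * (y * X.d 0))) = X.cmp n z * y := by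
  simp only [cmp_apply, mul_assoc, d_c_self, mul_one]

lemma cg_step (hA : CG A) : CG (X.Step A) := by
  intro I hI hI'
  let In : ℕ → Submodule F E := fun n =>
    I ⊓ X.FF A ⊓ LinearMap.eqLocus (LinearMap.mulLeft F (X.q n)) LinearMap.id
  have hIn : ∀ n z, z ∈ In n ↔ (z ∈ I ∧ z ∈ X.FF A) ∧ X.q n * z = z := fun n z => Iff.rfl
  have hmul : ∀ n, ∀ z ∈ In n, ∀ y ∈ X.FF A, z * y ∈ In n := fun n z hz y hy =>
    ⟨⟨hI' z hz.1.1 y (X.step_of_FF hy), X.FF_mul hz.1.2 hy⟩, by
      change X.q n * (z * y) = z * y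
      rw [← mul_assoc, ((hIn n z).1 hz).2]⟩
  choose G hG1 hG2 hG3 using fun n => hA ((In (n + 1)).map (X.cmp n))
    (by
      rintro _ ⟨z, hz, rfl⟩
      exact X.row_c (X.row_of_FF _ hz.1.2) 0)
    (by
      rintro _ ⟨z, hz, rfl⟩ y hy
      exact ⟨_, hmul _ z hz _ (X.mem_FF 0 hy _), X.cmp_mul n z y⟩)
  choose z hz hz' using fun n (g : G n) => hG2 n g.2
  obtain ⟨x0, hx0, hx0'⟩ : ∃ x0 ∈ I, ∀ x ∈ I, x ∈ X.FF A ∨ x - x0 ∈ X.FF A := by
    by_cases h : ∀ x ∈ I, x ∈ X.FF A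
    · exact ⟨0, I.zero_mem, fun x hx => Or.inl (h x hx)⟩
    · push Not at h
      obtain ⟨x0, h1, h2⟩ := h
      refine ⟨x0, h1, fun x hx => (X.step_cases (hI x hx)).imp_right fun h3 => ?_⟩
      simpa using Submodule.sub_mem _ h3 ((X.step_cases (hI x0 h1)).resolve_left h2)
  refine ⟨insert x0 (⋃ n, Set.range (z n)), Set.Countable.insert _ (Set.countable_iUnion fun n =>
    have := (hG1 n).to_subtype; Set.countable_range _), ?_, fun I' h1 h2 => ?_⟩
  · rintro _ (rfl | ⟨_, ⟨n, rfl⟩, g, rfl⟩)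
    · exact hx0
    · exact (hz n g).1.1
  have key : ∀ n, In n ≤ I' := by
    intro n
    induction n with
    | zero =>
      intro x hx
      rw [← ((hIn 0 x).1 hx).2]
      simp [q]
    | succ n ih =>
      have h3 := hG3 n ((In (n + 1) ⊓ I').map (X.cmp n))
        (fun g hg => ⟨z n ⟨g, hg⟩, ⟨hz n _, h1 (Or.inr (Set.mem_iUnion.2 ⟨n, _, rfl⟩))⟩, hz' n _⟩)
        (by
          rintro _ ⟨z, hz, rfl⟩ y hy
          exact ⟨_, ⟨hmul _ z hz.1 _ (X.mem_FF 0 hy _),
            h2 z hz.2 _ (X.step_of_FF (X.mem_FF 0 hy _))⟩, X.cmp_mul n z y⟩)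
      intro x hx
      obtain ⟨T, u, h⟩ := X.row_unit (X.row_of_FF (Pi.single n 1) hx.1.2)
      choose v hv hv' using fun t => h3 (Submodule.mem_map_of_mem (f := X.cmp n)
        (hmul _ x hx _ (X.cd_mem t (Pi.single 0 1))))
      have h4 : ∑ t ∈ T, v t * (X.c 0 * X.a (u t)) ∈ In (n + 1) ⊓ I' :=
        Submodule.sum_mem _ fun t _ => ⟨hmul _ _ (hv t).1 _ (X.cd_mem 0 _),
          h2 _ (hv t).2 _ (X.step_of_FF (X.cd_mem 0 _))⟩
      have h5 := Submodule.sub_mem _ hx h4.1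
      have h6 : X.d n * (x - ∑ t ∈ T, v t * (X.c 0 * X.a (u t))) = 0 := by
        rw [mul_sub, d, h, Finset.mul_sum, sub_eq_zero]
        refine Finset.sum_congr rfl fun t _ => ?_
        have := hv' t
        simp only [cmp_apply, mul_assoc, X.rel, Pi.single_eq_same, one_smul, mul_one] at this
        simp only [← mul_assoc] at this ⊢
        rw [← d, this]
      have h7 := ih (show _ ∈ In n from ⟨h5.1, by
        have := ((hIn _ _).1 h5).2
        rw [q_succ, add_mul, mul_assoc, h6, mul_zero, add_zero] at this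
        exact this⟩)
      simpa using Submodule.add_mem _ h7 h4.2
  have key2 : ∀ x ∈ I, x ∈ X.FF A → x ∈ I' := fun x hx hx' => by
    obtain ⟨n, hn⟩ := X.exists_q hx'
    exact key n ⟨⟨hx, hx'⟩, hn n le_rfl⟩
  intro x hx
  rcases hx0' x hx with h | h
  · exact key2 x hx h
  · simpa using Submodule.add_mem _ (key2 _ (I.sub_mem hx hx0) h) (h1 (Or.inl rfl))

def Rn : ℕ → Subalgebra F E
  | 0 => ⊥
  | n + 1 => X.Step (Rn n)

lemma Rn_mono : Monotone X.Rn := by
  refine monotone_nat_of_le_succ fun n => ?_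
  induction n with
  | zero => exact bot_le
  | succ n ih =>
    rintro x ⟨l, hl⟩
    refine ⟨l, Submodule.span_mono ?_ hl⟩
    rintro _ ⟨i, y, hy, w, rfl⟩
    exact ⟨i, y, ih hy, w, rfl⟩

def RR : Subalgebra F E := ⨆ n, X.Rn n

lemma mem_RR {x : E} : x ∈ X.RR ↔ ∃ n, x ∈ X.Rn n := by
  rw [← SetLike.mem_coe, RR, Subalgebra.coe_iSup_of_directed X.Rn_mono.directed_le]
  simp

lemma reg_RR : Reg X.RR := by
  have : ∀ n, Reg (X.Rn n) := by
    intro n
    induction n with
    | zero =>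
      intro x hx
      obtain ⟨l, rfl⟩ := Algebra.mem_bot.1 hx
      exact ⟨1, one_mem _, by rcases F_cases l with rfl | rfl <;> simp⟩
    | succ n ih => exact X.reg_step ih
  intro x hx
  obtain ⟨n, hn⟩ := X.mem_RR.1 hx
  obtain ⟨y, hy, h⟩ := this n x hn
  exact ⟨y, X.mem_RR.2 ⟨n, hy⟩, h⟩

lemma cg_RR : CG X.RR := by
  have : ∀ n, CG (X.Rn n) := by
    intro n
    induction n with
    | zero =>
      intro I hI _
      exact ⟨I, (Set.countable_range (algebraMap F E)).mono fun x hx => Algebra.mem_bot.1 (hI x hx),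
        le_rfl, fun I' h _ => h⟩
    | succ n ih => exact X.cg_step ih
  intro I hI hI'
  choose G h1 h2 h3 using fun n => this n (I ⊓ Subalgebra.toSubmodule (X.Rn n)) (fun x hx => hx.2)
    (fun x hx y hy => ⟨hI' x hx.1 y (X.mem_RR.2 ⟨n, hy⟩), (X.Rn n).mul_mem hx.2 hy⟩)
  refine ⟨⋃ n, G n, Set.countable_iUnion h1, Set.iUnion_subset fun n x hx => (h2 n hx).1,
    fun I' h4 h5 x hx => ?_⟩
  obtain ⟨n, hn⟩ := X.mem_RR.1 (hI x hx)
  exact h3 n I' ((Set.subset_iUnion G n).trans h4)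
    (fun x hx y hy => h5 x hx y (X.mem_RR.2 ⟨n, hy⟩)) ⟨hx, hn⟩

lemma RR_le : X.RR ≤ Algebra.adjoin F (Set.range (Sum.elim X.c X.a)) := by
  refine iSup_le fun n => ?_
  induction n with
  | zero => exact bot_le
  | succ n ih =>
    rintro x ⟨l, hl⟩
    have : X.FF (X.Rn n) ≤ Subalgebra.toSubmodule (Algebra.adjoin F (Set.range (Sum.elim X.c X.a))) :=
      Submodule.span_le.2 (by
        rintro _ ⟨i, y, hy, w, rfl⟩
        exact Subalgebra.mul_mem _ (Algebra.subset_adjoin ⟨Sum.inl i, rfl⟩)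
          (Subalgebra.mul_mem _ (ih hy) (Algebra.subset_adjoin ⟨Sum.inr w, rfl⟩)))
    simpa using add_mem (show _ ∈ Algebra.adjoin F _ from this hl)
      (Subalgebra.smul_mem _ (one_mem _) l)

end CA

end Pool.Agent.H.MP_cfafa5_al
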