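import Pool.Agent.H.MP_cfafa5_al.A
import Pool.Agent.H.MP_cfafa5_al.B

namespace Pool.Agent.H.MP_cfafa5_al

open Cardinal

abbrev LL := List ℕ →₀ F

/-- The parameter space. -/
def Φ : Type := {φ : (ℕ → F) →ₗ[F] F // (∀ j, φ (Pi.single j 1) = 0) ∧ φ ≠ 0}

abbrev EE := Φ → Module.End F LL

noncomputable def aFun (φ : Φ) (w : ℕ → F) : List ℕ → LL
  | [] => φ.1 w • Finsupp.single [] 1
  | j :: l => w j • Finsupp.single l 1

noncomputable def XX : CA EE where
  c i _ := Finsupp.lmapDomain F F (List.cons i)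
  a := { toFun := fun w φ => Finsupp.linearCombination F (aFun φ w)
         map_add' := fun w w' => funext fun φ => Finsupp.lhom_ext' fun l =>
           LinearMap.ext_ring (by cases l <;> simp [aFun, add_smul])
         map_smul' := fun r w => funext fun φ => Finsupp.lhom_ext' fun l =>
           LinearMap.ext_ring (by cases l <;> simp [aFun, mul_smul]) }
  rel w i := funext fun φ => Finsupp.lhom_ext' fun l => LinearMap.ext_ring (by simp [aFun])

lemma a_single (φ : Φ) (w : ℕ → F) (l : List ℕ) :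
    XX.a w φ (Finsupp.single l 1) = aFun φ w l := by simp [XX]

lemma c_single (φ : Φ) (i : ℕ) (l : List ℕ) :
    XX.c i φ (Finsupp.single l 1) = Finsupp.single (i :: l) 1 := by simp [XX]

lemma a_coeff (φ : Φ) (j : ℕ) (x : LL) (l : List ℕ) :
    XX.a (Pi.single j 1) φ x l = x (j :: l) := by
  induction x using Finsupp.induction_linear with
  | zero => simp
  | add x y hx hy => simp [hx, hy]
  | single m r =>
    rw [← Finsupp.smul_single_one, map_smul, a_single]
    cases m with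
    | nil => simp [aFun, φ.2.1]
    | cons i m =>
      simp only [aFun, Finsupp.smul_apply, Finsupp.single_apply, Pi.single_apply, List.cons.injEq]
      by_cases h1 : i = j <;> by_cases h2 : m = l <;> simp [h1, h2]

noncomputable def An : List (ℕ → F) → EE
  | [] => 1
  | w :: ws => An ws * XX.a w

noncomputable def Wd : List (ℕ → F) → EE
  | [] => 1
  | w :: ws => XX.c 0 * (Wd ws * XX.a w)

lemma An_append (ws ws' : List (ℕ → F)) : An (ws ++ ws') = An ws' * An ws := by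
  induction ws with
  | nil => simp [An]
  | cons w ws ih => simp [An, ih, mul_assoc]

lemma Wd_eq (ws : List (ℕ → F)) : Wd ws = XX.c 0 ^ ws.length * An ws := by
  induction ws with
  | nil => simp [Wd, An]
  | cons w ws ih => simp [Wd, An, ih, mul_assoc, pow_succ']

lemma Wd_mem (ws : List (ℕ → F)) : Wd ws ∈ XX.RR := by
  refine XX.mem_RR.2 ⟨ws.length, ?_⟩
  induction ws with
  | nil => exact one_mem _
  | cons w ws ih => exact XX.step_of_FF (XX.mem_FF 0 ih w)

noncomputable def gg (n : ℕ) : LL := Finsupp.single (List.replicate n 0) 1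

lemma gg_ne (n : ℕ) : gg n ≠ 0 := by simp [gg]

lemma c_pow (φ : Φ) (n : ℕ) : (XX.c 0 ^ n) φ (gg 0) = gg n := by
  induction n with
  | zero => simp
  | succ n ih =>
    rw [pow_succ', Pi.mul_apply, Module.End.mul_apply, ih, gg, c_single]
    rfl

lemma a_gg0 (φ : Φ) (w : ℕ → F) : XX.a w φ (gg 0) = φ.1 w • gg 0 := a_single φ w []

lemma a_gg (φ : Φ) (w : ℕ → F) (n : ℕ) : XX.a w φ (gg (n + 1)) = w 0 • gg n :=
  a_single φ w (0 :: List.replicate n 0)

lemma An_cons (φ : Φ) (w : ℕ → F) (ws : List (ℕ → F)) (x : LL) :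
    An (w :: ws) φ x = An ws φ (XX.a w φ x) := rfl

lemma reach0 (φ : Φ) (n : ℕ) : ∀ x : LL, x ≠ 0 → (∀ l, x l ≠ 0 → l.length ≤ n) →
    ∃ ws, An ws φ x = gg 0 := by
  have base : ∀ x : LL, x ≠ 0 → (∀ j l, x (j :: l) = 0) → ∃ ws, An ws φ x = gg 0 := by
    intro x hx h
    refine ⟨[], Finsupp.ext fun l => ?_⟩
    cases l with
    | nil =>
      rcases F_cases (x []) with h1 | h1
      · exact (hx (Finsupp.ext fun l => by cases l <;> simp [h1, h])).elim
      · simpa [An, gg] using h1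
    | cons j l => simp [An, gg, h]
  induction n with
  | zero =>
    intro x hx h
    exact base x hx fun j l => by
      by_contra h1
      simpa using h _ h1
  | succ n ih =>
    intro x hx h
    by_cases h1 : ∀ j l, x (j :: l) = 0
    · exact base x hx h1
    · push Not at h1
      obtain ⟨j, l, h1⟩ := h1
      obtain ⟨ws, hws⟩ := ih (XX.a (Pi.single j 1) φ x)
        (fun h2 => h1 (by rw [← a_coeff φ, h2]; rfl))
        (fun m hm => by simpa using h (j :: m) (by rwa [← a_coeff φ]))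
      exact ⟨_ :: ws, hws⟩

lemma reach (φ : Φ) (x : LL) (hx : x ≠ 0) : ∃ n0, ∀ n, n0 ≤ n →
    ∃ ws : List (ℕ → F), ws.length = n ∧ Wd ws φ x = gg n := by
  obtain ⟨ws, hws⟩ := reach0 φ (x.support.sup List.length) x hx
    fun l hl => Finset.le_sup (f := List.length) (Finsupp.mem_support_iff.2 hl)
  obtain ⟨w, hw⟩ := DFunLike.ne_iff.1 φ.2.2
  have hw' : φ.1 w = 1 := (F_cases _).resolve_left hw
  have h1 : ∀ k, An (List.replicate k w) φ (gg 0) = gg 0 := by
    intro k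
    induction k with
    | zero => rfl
    | succ k ih => rw [List.replicate_succ, An_cons, a_gg0, hw', one_smul, ih]
  refine ⟨ws.length, fun n hn => ⟨ws ++ List.replicate (n - ws.length) w, by simp; omega, ?_⟩⟩
  rw [Wd_eq, An_append, Pi.mul_apply, Pi.mul_apply, Module.End.mul_apply, Module.End.mul_apply, hws,
    h1, c_pow]
  simp only [List.length_append, List.length_replicate]
  congr 1
  omega

lemma scal (φ : Φ) (ws : List (ℕ → F)) : ∀ n, n ≤ ws.length → ∃ l : F, An ws φ (gg n) = l • gg 0 := by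
  induction ws with
  | nil =>
    intro n hn
    obtain rfl : n = 0 := by simpa using hn
    exact ⟨1, by simp [An]⟩
  | cons w ws ih =>
    intro n hn
    rcases n with _ | n
    · obtain ⟨l, hl⟩ := ih 0 (Nat.zero_le _)
      exact ⟨_, by rw [An_cons, a_gg0, map_smul, hl, smul_smul]⟩
    · obtain ⟨l, hl⟩ := ih n (by simpa using hn)
      exact ⟨_, by rw [An_cons, a_gg, map_smul, hl, smul_smul]⟩

lemma probe (φ : Φ) (w : ℕ → F) (n : ℕ) :
    Wd (List.replicate n (Pi.single 0 1) ++ [w]) φ (gg n) = φ.1 w • gg (n + 1) := by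
  have h1 : ∀ k, An (List.replicate k (Pi.single 0 1)) φ (gg k) = gg 0 := by
    intro k
    induction k with
    | zero => rfl
    | succ k ih => rw [List.replicate_succ, An_cons, a_gg, Pi.single_eq_same, one_smul, ih]
  rw [Wd_eq, An_append, Pi.mul_apply, Pi.mul_apply, Module.End.mul_apply, Module.End.mul_apply, h1,
    An_cons, a_gg0, map_smul, map_smul]
  exact congrArg _ ((c_pow φ _).trans (by simp))

lemma unif (φ : Φ) (x y : LL) (hx : x ≠ 0) (hy : y ≠ 0) :
    ∃ r ∈ XX.RR, ∃ s ∈ XX.RR, r φ x = s φ y ∧ r φ x ≠ 0 := by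
  obtain ⟨n, hn⟩ := reach φ x hx
  obtain ⟨m, hm⟩ := reach φ y hy
  obtain ⟨ws, -, h1⟩ := hn (max n m) (le_max_left _ _)
  obtain ⟨ws', -, h2⟩ := hm (max n m) (le_max_right _ _)
  exact ⟨_, Wd_mem ws, _, Wd_mem ws', h1.trans h2.symm, h1 ▸ gg_ne _⟩

lemma separ (φ ψ : Φ) (x y : LL) (hx : x ≠ 0) (h : ∀ r ∈ XX.RR, r φ x = 0 ↔ r ψ y = 0) :
    φ = ψ := by
  obtain ⟨n, hn⟩ := reach φ x hx
  obtain ⟨ws, -, h1⟩ := hn n le_rfl
  have h2 : Wd ws ψ y ≠ 0 := fun h2 => gg_ne n (h1 ▸ (h _ (Wd_mem ws)).2 h2)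
  obtain ⟨m, hm⟩ := reach ψ _ h2
  obtain ⟨ws', h3, h4⟩ := hm (max n m) (le_max_right _ _)
  have h5 : Wd ws' φ (Wd ws φ x) = gg (max n m) := by
    have h6 : Wd ws' φ (Wd ws φ x) ≠ 0 := fun h6 =>
      gg_ne _ (h4 ▸ (h _ (mul_mem (Wd_mem ws') (Wd_mem ws))).1 h6)
    obtain ⟨l, hl⟩ := scal φ ws' n (h3 ▸ le_max_left _ _)
    rw [h1, Wd_eq ws', Pi.mul_apply, Module.End.mul_apply, hl, map_smul, c_pow, h3] at h6 ⊢
    rcases F_cases l with rfl | rfl
    · simp at h6
    · simp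
  refine Subtype.ext (LinearMap.ext fun w => ?_)
  have := h _ (mul_mem (Wd_mem (List.replicate (max n m) (Pi.single 0 1) ++ [w]))
    (mul_mem (Wd_mem ws') (Wd_mem ws)))
  simp only [Pi.mul_apply, Module.End.mul_apply, h4, h5, probe, smul_eq_zero, gg_ne,
    or_false] at this
  rcases F_cases (φ.1 w) with h6 | h6 <;> rcases F_cases (ψ.1 w) with h7 | h7 <;> simp_all

lemma card_W : #(ℕ → F) = 𝔠 := by simp

lemma card_Φ : 𝔠 < #Φ := by
  have h1 : 𝔠 < #((ℕ → F) →ₗ[F] F) := by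
    have h2 : Module.rank F (ℕ → F) = 𝔠 := rank_fun_infinite.trans card_W
    have := rank_lt_rank_dual (K := F) (V := ℕ → F) (h2 ▸ aleph0_le_continuum)
    rw [h2] at this
    exact this.trans_le (rank_le_card _ _)
  obtain ⟨l, hl, hl'⟩ := (LinearMap.range (Finsupp.lcoeFun (R := F) (α := ℕ) (M := F))
    ).exists_dual_map_eq_bot_of_notMem (x := 1) (by
      rintro ⟨f, hf⟩
      obtain ⟨n, hn⟩ := Infinite.exists_notMem_finset f.support
      have := congrFun hf n
      simp [Finsupp.notMem_support_iff.1 hn] at this) inferInstance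
  have hl1 : l 1 = 1 := (F_cases _).resolve_left hl
  have hl2 : ∀ f : ℕ →₀ F, l f = 0 := fun f =>
    (Submodule.eq_bot_iff _).1 hl' _ ⟨_, ⟨f, rfl⟩, rfl⟩
  let T : (ℕ → F) →ₗ[F] (ℕ → F) :=
    LinearMap.pi fun i => l ∘ₗ LinearMap.funLeft F F (fun j => Nat.pair i j)
  have hT : Function.Surjective T := fun u => ⟨fun k => u k.unpair.1, funext fun i => by
    have : LinearMap.funLeft F F (fun j => Nat.pair i j) (fun k => u k.unpair.1) = u i • 1 :=
      funext fun j => by simp [LinearMap.funLeft]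
    simp [T, this, hl1]⟩
  have hT' : ∀ k, T (Pi.single k 1) = 0 := fun k => funext fun i => by
    have := hl2 (Finsupp.comapDomain (fun j => Nat.pair i j) (Finsupp.single k 1)
      fun a _ b _ h => (Nat.pair_eq_pair.1 h).2)
    refine Eq.trans ?_ this
    refine congrArg l (funext fun j => ?_)
    simp [LinearMap.funLeft, Finsupp.single_apply, Pi.single_apply, eq_comm]
  classical
  let G : ((ℕ → F) →ₗ[F] F) → Option Φ := fun ψ =>
    if h : ψ ∘ₗ T = 0 then none else some ⟨ψ ∘ₗ T, fun j => by simp [hT'], h⟩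
  have hG : Function.Injective G := by
    intro ψ ψ' h
    rw [← LinearMap.cancel_right hT]
    simp only [G] at h
    split_ifs at h with h2 h3 h3
    · rw [h2, h3]
    · exact congrArg Subtype.val (Option.some.inj h)
  by_contra hc
  have := (mk_le_of_injective hG).trans_eq mk_option
  exact (h1.trans_le this).not_ge ((add_le_add (not_lt.1 hc) (one_le_aleph0.trans
    aleph0_le_continuum)).trans_eq continuum_add_self)

lemma card_RR : #XX.RR ≤ 𝔠 := by
  refine (mk_le_mk_of_subset XX.RR_le).trans ((Algebra.cardinalMk_adjoin_le _ _).trans ?_)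
  refine max_le (max_le ?_ (mk_range_le.trans ?_)) aleph0_le_continuum
  · exact (lt_aleph0_of_finite _).le.trans aleph0_le_continuum
  · simp

open MulOpposite in
lemma card_ideal {E : Type} [Ring E] [Algebra F E] (A : Subalgebra F E) (hA : CA.CG A)
    (hc : #A ≤ 𝔠) : #(Ideal Aᵐᵒᵖ) ≤ 𝔠 := by
  let J : Ideal Aᵐᵒᵖ → Submodule F E := fun I =>
    { carrier := {x | ∃ h : x ∈ A, op ⟨x, h⟩ ∈ I}
      add_mem' := fun ⟨h1, h2⟩ ⟨h3, h4⟩ => ⟨add_mem h1 h3, I.add_mem h2 h4⟩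
      zero_mem' := ⟨zero_mem _, I.zero_mem⟩
      smul_mem' := fun l x ⟨h1, h2⟩ => by
        rcases F_cases l with rfl | rfl
        · rw [zero_smul]
          exact ⟨zero_mem _, I.zero_mem⟩
        · rw [one_smul]
          exact ⟨h1, h2⟩ }
  have hJ : ∀ I, ∀ x ∈ J I, ∀ y ∈ A, x * y ∈ J I := fun I x ⟨h1, h2⟩ y hy =>
    ⟨mul_mem h1 hy, I.mul_mem_left (op ⟨y, hy⟩) h2⟩
  have : ∀ I : Ideal Aᵐᵒᵖ, ∃ s : ℕ → A, (∀ n, op (s n) ∈ I) ∧
      ∀ I' : Ideal Aᵐᵒᵖ, (∀ n, op (s n) ∈ I') → I ≤ I' := by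
    intro I
    obtain ⟨G, h1, h2, h3⟩ := hA (J I) (fun x hx => hx.1) (hJ I)
    obtain ⟨s, hs⟩ := (h1.insert 0).exists_eq_range (Set.insert_nonempty _ _)
    have h4 : ∀ n, s n ∈ J I := fun n => by
      rcases hs.ge ⟨n, rfl⟩ with h | h
      · rw [h]; exact zero_mem _
      · exact h2 h
    refine ⟨fun n => ⟨s n, (h4 n).1⟩, fun n => (h4 n).2, fun I' h x hx => ?_⟩
    exact (h3 (J I') (fun g hg => by
      obtain ⟨n, rfl⟩ := hs.le (Or.inr hg)
      exact ⟨_, h n⟩) (hJ I') (show x.unop.1 ∈ J I from ⟨x.unop.2, hx⟩)).2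
  choose s h1 h2 using this
  refine (mk_le_of_injective (f := s) fun I I' h =>
    le_antisymm (h2 I I' (h ▸ h1 I')) (h2 I' I (h ▸ h1 I))).trans ?_
  rw [← power_def, mk_nat]
  exact (power_le_power_right hc).trans_eq continuum_power_aleph0

/-- The properties of the example. -/
def Good : Prop := ∃ (R : Type) (_ : Ring R) (L : Type) (_ : AddCommGroup L) (Φ : Type)
    (ρ : Φ → R →+* AddMonoid.End L), (∀ a : R, ∃ x, a * x * a = a) ∧ #(Ideal Rᵐᵒᵖ) < #Φ ∧
    Nontrivial L ∧ (∀ φ x y, x ≠ 0 → y ≠ 0 → ∃ r s, ρ φ r x = ρ φ s y ∧ ρ φ r x ≠ 0) ∧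
    ∀ φ ψ x y, x ≠ 0 → (∀ r, ρ φ r x = 0 ↔ ρ ψ r y = 0) → φ = ψ

lemma good_of {E : Type} [Ring E] [Algebra F E] (A : Subalgebra F E) (hA : CA.CG A)
    (hc : #A ≤ 𝔠) (hr : CA.Reg A) {L Φ : Type} [AddCommGroup L] [Nontrivial L] (hΦ : 𝔠 < #Φ)
    (ρ : Φ → E →+* AddMonoid.End L)
    (h1 : ∀ φ x y, x ≠ 0 → y ≠ 0 → ∃ r ∈ A, ∃ s ∈ A, ρ φ r x = ρ φ s y ∧ ρ φ r x ≠ 0)
    (h2 : ∀ φ ψ x y, x ≠ 0 → (∀ r ∈ A, ρ φ r x = 0 ↔ ρ ψ r y = 0) → φ = ψ) : Good := by
  refine ⟨A, inferInstance, L, inferInstance, Φ, fun φ => (ρ φ).comp A.val.toRingHom, fun a => ?_,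
    (card_ideal A hA hc).trans_lt hΦ, inferInstance,
    fun φ x y hx hy => ?_, fun φ ψ x y hx h => h2 φ ψ x y hx fun r hr => h ⟨r, hr⟩⟩
  · obtain ⟨y, hy, h⟩ := hr a a.2
    exact ⟨⟨y, hy⟩, Subtype.ext h⟩
  · obtain ⟨r, hr, s, hs, h⟩ := h1 φ x y hx hy
    exact ⟨⟨r, hr⟩, ⟨s, hs⟩, h⟩

/-- Evaluation. -/
noncomputable def ev (φ : Φ) : EE →+* AddMonoid.End LL where
  toFun r := (r φ).toAddMonoidHom
  map_one' := rfl
  map_mul' _ _ := rfl
  map_zero' := rfl
  map_add' _ _ := rfl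

theorem exists_ring : Good :=
  good_of (E := EE) XX.RR XX.cg_RR card_RR XX.reg_RR card_Φ ev
    (fun φ x y hx hy => unif φ x y hx hy) (fun φ ψ x y hx h => separ φ ψ x y hx h)

end Pool.Agent.H.MP_cfafa5_al
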